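import Pool.Agent.MP_6b3e96_gt.H77.Spec

/-!
The reflection group of the 24-cell: coset table, chamber and orders of the dihedral subgroups.
-/

open scoped RealInnerProductSpace
open Set

namespace Pool.Agent.MP_6b3e96_gt.H78

open Pool.Agent.MP_6b3e96_gt.H77

/-- Packed entries of the coset representatives. -/
def repN : ℕ :=
  65514885951800581687766555357556762343634822382095621645275913279825628047144492066653805511126918276290054472537584627392443927546901165488266281144852615966205506378563750482248803933748260693133786261549864036591082820799409077272848174342716107059812327607460029580796872567655775959454828371859709320973315930698841831541772234558990329255532406789690499732137410239183145311505597826255204891243629934277463555529538748620129597247617450170356273456067536250329454767556971527120491334293339178736965585443464313516111485452727033451043496179490419659580447691874011528285265404684523092192576433646342129582952835978109682614539298202890000589026339836098257976004556488149385238306273631125477821722831162961671164371161978145127383142639153401155679374482963965152645067501291187867491720317930713288261156097118732823139138565870827272669778934807002708345652825001937012423225254381138101629580255350369452002898304951104343467220698208843259689731341688231931848564680960730483830043595681919973052512747391574314060519632938132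
/-- Packed word lengths. -/
def depN : ℕ :=
  38687588451904018120527322645740688037361523953998162886174635185693037445145219957498396365686046135975792623621789792005980604139077464704254288090758697196137069057498274279556325071712140332304620971212246156658432327072662738180346469870565456743288834171152863378871555495958591227654865147568814396259982579138801659631644046313515909087237674607565415996103736664147210737340937423705474886575258262020847089157246846014896918297817897876185079263797236670116620234704688750806058385860990050407718048735148806419733230675696320094902250695866573204675366891879382122874077609278814991413635873404135060464485678388664104298147900815548050106890682811488546154250038348859267422435124524122248247797559465521001120339394457835063432827856519721842002567451524006808943163573484694194352780991882647238393581656259432466350439831165220236747154307533825751284462004187920360893088443142112733138783985292563811980876952275169837238124816578029021964891403637966546571180260583178713872442466661585026060571562590408752350092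8437074401991614781997399958154731493186362423854257504861885375908110253789838359133244736083531906543935885091684712617167918804077053566459852443420725821434384664727469971571143696180019657263094217051168661809289572998347928110052979079628680796955942094297420191043152381616366003270618962488618560173593961419223965589510670092445775326721379700692856243760983486092038178502655645715022398748838249050002189039377296721484777509078256193283318138176460951868225336095578771898038125247228072528272681867500936506039669421836872702744624779087299536905667488713372524543811021721310648994127613952340753749228256731687501475956045521620920618937371183448174296854260387059040833862785632856736800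
/-- Packed descents. -/
def chN : ℕ :=
  718086782649318969803417649952090470952326110549419424088466463585493492922207478546651878830255913700552582400062620554508172201787464213813889714375682160178840275488902822849530002885092513150443872147585568960710441047850564373013282568090741900665933187688859314462570983958350599111954655784301439992969414899190297400934595624554731572474166029655123155127705462031420017817633999852516299914599938881308013612382032521362717780029876030162570072635755254392154566717733425850938083329284237175471585793478548491163883190708255225293307631391620192071693020027869573884757820078181365251092499597981592239879099297796814484290744124579090189234576807963793967078981724713206786507970276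
/-- Keys of the coset representatives. -/
def keyT : List ℕ :=
  [2040616, 4020616, 2060416, 4060814, 6020416, 6040814, 4060216, 4080614, 2081012, 6040216,
  8040614, 8021012, 6080414, 2100812, 2081210, 8060414, 10020812, 8021210, 8100212, 2120810,
  4061408, 2101208, 10080212, 12020810, 6041408, 10021208, 8120210, 4140608, 2121008, 4081406,
  2041606, 12080210, 14040608, 12021008, 8041406, 4021606, 6140408, 10120208, 4140806, 2160406,
  6081404, 2061604, 14060408, 12100208, 14040806, 16020406, 8061404, 6021604, 8140406, 4160206,
  6140804, 2160604, 8101202, 4061602, 14080406, 16040206, 14060804, 16020604, 10081202, 6041602,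
  8140604, 6160204, 8121002, 4160602, 14080604, 16060204, 12081002, 16040602, 10120802, 6160402,
  12100802, 16060402]

/-- Twice the entries of the coset representatives. -/
def rp (j : Fin 72) (a b : Fin 4) : ℤ := ((repN >>> (3 * (16 * j.1 + 4 * a.1 + b.1))) % 8 : ℕ) - 2
/-- Signs. -/
def sn (s : Fin 16) (a : Fin 4) : ℤ := if (s.1 >>> a.1) % 2 = 1 then -1 else 1
/-- Twice the entries of the group elements. -/
def mat (k : Fin 16 × Fin 72) (a b : Fin 4) : ℤ := sn k.1 a * rp k.2 a b
/-- The word length. -/
def dep (k : Fin 16 × Fin 72) : ℕ := (depN >>> (5 * (72 * k.1.1 + k.2.1))) % 32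
/-- A descent. -/
def ch (k : Fin 16 × Fin 72) : Fin 4 := Fin.ofNat 4 (chN >>> (2 * (72 * k.1.1 + k.2.1)))
/-- The simple roots. -/
def rt (i a : Fin 4) : ℤ := !![0, 0, 0, 1; 0, 0, 1, -1; 0, 1, -1, 0; 1, -1, -1, -1] i a
/-- Twice the entries of the simple reflections. -/
def rm (i a b : Fin 4) : ℤ := (if a = b then 2 else 0) - ![4, 2, 2, 1] i * rt i a * rt i b
/-- A sum over four terms. -/
def s4 (f : Fin 4 → ℤ) : ℤ := f 0 + f 1 + f 2 + f 3
/-- Twice the image of a regular vector. -/
def wv (j : Fin 72) (a : Fin 4) : ℤ := 8 * rp j a 0 + 3 * rp j a 1 + 2 * rp j a 2 + rp j a 3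
/-- The key of a representative. -/
def key (j : Fin 72) : ℕ := (wv j 0).natAbs + 100 * (wv j 1).natAbs + 10000 * (wv j 2).natAbs +
  1000000 * (wv j 3).natAbs
/-- Nonpositive combinations of the simple roots. -/
def Neg (u : Fin 4 → ℤ) : Prop :=
  u 0 ≤ 0 ∧ u 0 + u 1 ≤ 0 ∧ 2 * u 0 + u 1 + u 2 ≤ 0 ∧ 3 * u 0 + u 1 + u 2 + u 3 ≤ 0

instance (u : Fin 4 → ℤ) : Decidable (Neg u) := by unfold Neg; infer_instance

theorem chk_mul : ∀ (j : Fin 72) (i a c : Fin 4),
    s4 (fun b => rp j a b * rm i b c) = 2 * (sn (sg j i) a * rp (nb j i) a c) := by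
  decide +kernel

theorem chk_sn : ∀ (s t : Fin 16) (a : Fin 4), sn (s ^^^ t) a = sn s a * sn t a := by
  decide +kernel

theorem chk_sn_abs : ∀ (s : Fin 16) (a : Fin 4), (sn s a).natAbs = 1 := by
  decide +kernel

theorem chk_sn_inj : ∀ s t : Fin 16, (∀ a, sn s a = sn t a) → s = t := by
  decide +kernel

theorem chk_key : ∀ j : Fin 72, key j = keyT.getD j 0 := by
  decide +kernel

theorem chk_key_inj : ∀ j j' : Fin 72, keyT.getD j 0 = keyT.getD j' 0 → j = j' := by
  decide +kernel

theorem chk_wv : ∀ (j : Fin 72) (a : Fin 4), wv j a ≠ 0 := by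
  decide +kernel

theorem chk_one : ∀ a b : Fin 4, mat (0, 0) a b = if a = b then 2 else 0 := by
  decide +kernel

theorem chk_inv : ∀ (j : Fin 72) (i : Fin 4), nb (nb j i) i = j ∧ sg (nb j i) i = sg j i := by
  decide +kernel

theorem chk_xor : ∀ s t : Fin 16, (s ^^^ t) ^^^ t = s := by
  decide +kernel

theorem chk_dep : ∀ (s : Fin 16) (j : Fin 72), (s = 0 ∧ j = 0) ∨
    (dep (nbr (s, j) (ch (s, j))) < dep (s, j) ∧
      Neg fun a => s4 fun b => mat (s, j) a b * rt (ch (s, j)) b) := by
  decide +kernel

theorem nbr_nbr (k : Fin 16 × Fin 72) (i : Fin 4) : nbr (nbr k i) i = k := by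
  obtain ⟨s, j⟩ := k
  simp only [nbr, (chk_inv j i).1, (chk_inv j i).2, chk_xor]

theorem mat_mul (k : Fin 16 × Fin 72) (i a c : Fin 4) :
    s4 (fun b => mat k a b * rm i b c) = 2 * mat (nbr k i) a c := by
  have h := chk_mul k.2 i a c
  simp only [s4, mat, nbr, chk_sn] at h ⊢
  linear_combination sn k.1 a * h

theorem mat_inj {k k' : Fin 16 × Fin 72}
    (h : ∀ a, sn k.1 a * wv k.2 a = sn k'.1 a * wv k'.2 a) : k = k' := by
  have h1 : ∀ a, (wv k.2 a).natAbs = (wv k'.2 a).natAbs := by
    intro a
    have := congrArg Int.natAbs (h a)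
    rwa [Int.natAbs_mul, Int.natAbs_mul, chk_sn_abs, chk_sn_abs, one_mul, one_mul] at this
  have h2 : k.2 = k'.2 := by
    apply chk_key_inj
    rw [← chk_key, ← chk_key]
    simp only [key, h1]
  refine Prod.ext (chk_sn_inj _ _ fun a => ?_) h2
  have := h a
  rw [h2] at this
  exact mul_right_cancel₀ (chk_wv _ _) this

/-- The isometry `g` has the matrix `M / 2`. -/
def Rep (g : E4 ≃ₗᵢ[ℝ] E4) (M : Fin 4 → Fin 4 → ℤ) : Prop :=
  ∀ x a, 2 * g x a = M a 0 * x 0 + M a 1 * x 1 + M a 2 * x 2 + M a 3 * x 3

theorem Rep.ext {g g' : E4 ≃ₗᵢ[ℝ] E4} {M : Fin 4 → Fin 4 → ℤ} (h : Rep g M) (h' : Rep g' M) :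
    g = g' := by
  ext x a
  linarith [h x a, h' x a]

theorem root_apply (i a : Fin 4) : root i a = rt i a := by
  fin_cases i <;> fin_cases a <;> simp [root, rt]

theorem inner_four (x y : E4) : ⟪x, y⟫ = x 0 * y 0 + x 1 * y 1 + x 2 * y 2 + x 3 * y 3 := by
  simp only [PiLp.inner_apply, Fin.sum_univ_four, RCLike.inner_apply, conj_trivial]
  ring

theorem refl_apply (i : Fin 4) (x : E4) :
    refl i x = x - (2 * (⟪root i, x⟫ / ⟪root i, root i⟫)) • root i := by
  unfold H77.refl
  rw [Submodule.reflection_orthogonal_apply, Submodule.reflection_singleton_apply,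
    real_inner_self_eq_norm_sq, neg_sub, mul_smul, two_smul, two_smul]
  simp

theorem rep_refl (i : Fin 4) : Rep (refl i) (rm i) := by
  intro x a
  rw [refl_apply, inner_four, inner_four]
  simp only [PiLp.sub_apply, PiLp.smul_apply, smul_eq_mul, root_apply]
  fin_cases i <;> fin_cases a <;> simp [rm, rt] <;> ring

theorem rep_one : Rep 1 (mat (0, 0)) := by
  intro x a
  simp only [chk_one]
  fin_cases a <;> simp

theorem Rep.mul {g : E4 ≃ₗᵢ[ℝ] E4} {k : Fin 16 × Fin 72} (h : Rep g (mat k)) (i : Fin 4) :
    Rep (g * refl i) (mat (nbr k i)) := by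
  intro x a
  have h0 := h (refl i x) a
  have r := rep_refl i x
  have m : ∀ c, ((s4 (fun b => mat k a b * rm i b c) : ℤ) : ℝ) = (2 * mat (nbr k i) a c : ℤ) :=
    fun c => by rw [mat_mul]
  simp only [s4] at m
  push_cast at m
  have e : (g * refl i) x = g (refl i x) := rfl
  rw [e]
  linear_combination h0 + (mat k a 0 * r 0 + mat k a 1 * r 1 + mat k a 2 * r 2 +
    mat k a 3 * r 3 + x 0 * m 0 + x 1 * m 1 + x 2 * m 2 + x 3 * m 3) / 2

theorem refl_mul_self (i : Fin 4) : refl i * refl i = 1 := Submodule.reflection_mul_reflection _

theorem refl_inv (i : Fin 4) : (refl i)⁻¹ = refl i := inv_eq_of_mul_eq_one_right (refl_mul_self i)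

theorem exists_rep (k : Fin 16 × Fin 72) : ∃ g : W, Rep g (mat k) := by
  induction h : dep k using Nat.strong_induction_on generalizing k with
  | _ n ih =>
    obtain ⟨s, j⟩ := k
    rcases chk_dep s j with ⟨rfl, rfl⟩ | ⟨h1, -⟩
    · exact ⟨1, rep_one⟩
    · obtain ⟨g, hg⟩ := ih _ (h ▸ h1) _ rfl
      refine ⟨g * rW (ch (s, j)), ?_⟩
      have := hg.mul (ch (s, j))
      rwa [nbr_nbr] at this

/-- The group element with a given index. -/
noncomputable def el (k : Fin 16 × Fin 72) : W := (exists_rep k).choose

theorem el_rep (k : Fin 16 × Fin 72) : Rep (el k) (mat k) := (exists_rep k).choose_spec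

theorem el_mul (k : Fin 16 × Fin 72) (i : Fin 4) : el k * rW i = el (nbr k i) :=
  Subtype.ext (((el_rep k).mul i).ext (el_rep _))

theorem el_mul' (k : Fin 16 × Fin 72) (i : Fin 4) : (el k).1 * refl i = (el (nbr k i)).1 :=
  congrArg Subtype.val (el_mul k i)

theorem el_one : (el (0, 0)).1 = 1 := (el_rep _).ext rep_one

theorem el_inj : Function.Injective fun k => (el k).1 := by
  intro k k' h
  apply mat_inj
  intro a
  have h1 := el_rep k !₂[8, 3, 2, 1] a
  have h2 := el_rep k' !₂[8, 3, 2, 1] a
  simp only at h
  rw [h, h2] at h1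
  simp only [mat, wv] at h1 ⊢
  simp only [Matrix.cons_val_zero, Matrix.cons_val_one, Matrix.cons_val] at h1
  have : ((sn k.1 a * (8 * rp k.2 a 0 + 3 * rp k.2 a 1 + 2 * rp k.2 a 2 + rp k.2 a 3) : ℤ) : ℝ) =
      (sn k'.1 a * (8 * rp k'.2 a 0 + 3 * rp k'.2 a 1 + 2 * rp k'.2 a 2 + rp k'.2 a 3) : ℤ) := by
    push_cast at h1 ⊢
    linear_combination -h1
  exact_mod_cast this

theorem mem_image {I : Set (Fin 4)} {S : Set (Fin 16 × Fin 72)} (h0 : (0, 0) ∈ S)
    (hS : ∀ k ∈ S, ∀ i ∈ I, nbr k i ∈ S) {g : E4 ≃ₗᵢ[ℝ] E4}
    (hg : g ∈ Subgroup.closure (refl '' I)) : g ∈ (fun k => (el k).1) '' S := by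
  induction hg using Subgroup.closure_induction_right with
  | one => exact ⟨_, h0, el_one⟩
  | mul_right x _ y hy ih =>
    obtain ⟨k, hk, rfl⟩ := ih
    obtain ⟨i, hi, rfl⟩ := hy
    exact ⟨_, hS k hk i hi, (el_mul' k i).symm⟩
  | mul_inv_cancel x _ y hy ih =>
    obtain ⟨k, hk, rfl⟩ := ih
    obtain ⟨i, hi, rfl⟩ := hy
    exact ⟨_, hS k hk i hi, by rw [refl_inv]; exact (el_mul' k i).symm⟩

theorem el_surj {g : E4 ≃ₗᵢ[ℝ] E4} (hg : g ∈ W) : ∃ k, (el k).1 = g := by
  rw [W, ← image_univ] at hg
  obtain ⟨k, -, hk⟩ := mem_image (S := univ) trivial (fun _ _ _ _ => trivial) hg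
  exact ⟨k, hk⟩

theorem card_closure (I : Finset (Fin 4)) (S : Finset (Fin 16 × Fin 72)) (h0 : (0, 0) ∈ S)
    (hS : ∀ k ∈ S, ∀ i ∈ I, nbr k i ∈ S)
    (hd : ∀ k ∈ S, k = (0, 0) ∨ ∃ i ∈ I, dep (nbr k i) < dep k) :
    Nat.card (Subgroup.closure (refl '' (I : Set (Fin 4)))) = S.card := by
  have h1 : ∀ k ∈ S, (el k).1 ∈ Subgroup.closure (refl '' (I : Set (Fin 4))) := by
    intro k hk
    induction h : dep k using Nat.strong_induction_on generalizing k with
    | _ n ih =>
      rcases hd k hk with rfl | ⟨i, hi, h1⟩
      · rw [el_one]; exact one_mem _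
      · have := ih _ (h ▸ h1) _ (hS k hk i hi) rfl
        rw [← nbr_nbr k i, ← el_mul']
        exact mul_mem this (Subgroup.subset_closure ⟨i, hi, rfl⟩)
  have h2 : ((Subgroup.closure (refl '' (I : Set (Fin 4))) : Subgroup (E4 ≃ₗᵢ[ℝ] E4)) :
      Set (E4 ≃ₗᵢ[ℝ] E4)) = (fun k => (el k).1) '' (S : Set (Fin 16 × Fin 72)) := by
    refine Subset.antisymm (fun g hg => mem_image h0 hS hg) ?_
    rintro _ ⟨k, hk, rfl⟩
    exact h1 k hk
  have h3 : Nat.card (Subgroup.closure (refl '' (I : Set (Fin 4)))) =
      Set.ncard ((Subgroup.closure (refl '' (I : Set (Fin 4))) : Subgroup (E4 ≃ₗᵢ[ℝ] E4)) :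
        Set (E4 ≃ₗᵢ[ℝ] E4)) := rfl
  rw [h3, h2, ncard_image_of_injective _ el_inj, ncard_coe_finset]

theorem chamber (k : Fin 16 × Fin 72) (x : E4) (hx : ∀ i, 0 ≤ ⟪root i, x⟫)
    (hk : ∀ i, 0 ≤ ⟪root i, (el k).1 x⟫) :
    (el k).1 ∈ Subgroup.closure (refl '' {i | ⟪root i, x⟫ = 0}) := by
  induction h : dep k using Nat.strong_induction_on generalizing k with
  | _ n ih =>
    obtain ⟨s, j⟩ := k
    rcases chk_dep s j with ⟨rfl, rfl⟩ | ⟨h1, n0, n1, n2, n3⟩
    · rw [el_one]; exact one_mem _
    · generalize ch (s, j) = i at h1 n0 n1 n2 n3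
      generalize (s, j) = k at *
      have hu : ∀ a, ((s4 fun b => mat k a b * rt i b : ℤ) : ℝ) = 2 * (el k).1 (root i) a := by
        intro a
        rw [el_rep k (root i) a]
        simp only [s4, root_apply]
        push_cast
        ring
      have m0 := (Int.cast_le (R := ℝ)).mpr n0
      have m1 := (Int.cast_le (R := ℝ)).mpr n1
      have m2 := (Int.cast_le (R := ℝ)).mpr n2
      have m3 := (Int.cast_le (R := ℝ)).mpr n3
      simp only [Int.cast_add, Int.cast_mul, hu, Int.cast_ofNat, Int.cast_zero] at m0 m1 m2 m3
      have k0 := hk 0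
      have k1 := hk 1
      have k2 := hk 2
      have k3 := hk 3
      simp only [inner_four, root_apply] at k0 k1 k2 k3
      simp [rt] at k0 k1 k2 k3
      have hi : ⟪root i, x⟫ = 0 := by
        refine le_antisymm ?_ (hx i)
        rw [← (el k).1.inner_map_map, inner_four]
        nlinarith [mul_nonneg (neg_nonneg.mpr m3) k0,
          mul_nonneg (neg_nonneg.mpr m2) (sub_nonneg.mpr k1),
          mul_nonneg (neg_nonneg.mpr m1) (sub_nonneg.mpr k2),
          mul_nonneg (neg_nonneg.mpr m0) (sub_nonneg.mpr k3)]
      have hr : refl i x = x := by rw [refl_apply, hi]; simp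
      have := ih _ (h ▸ h1) (nbr k i) (fun i' => by
        rw [← el_mul']
        have e : ((el k).1 * refl i) x = (el k).1 (refl i x) := rfl
        rw [e, hr]
        exact hk i') rfl
      rw [← nbr_nbr k i, ← el_mul']
      exact mul_mem this (Subgroup.subset_closure ⟨i, hi, rfl⟩)

theorem group : GroupStmt := by
  refine ⟨⟨Equiv.ofBijective el ⟨fun k k' h => el_inj (congrArg Subtype.val h), fun g => ?_⟩,
    el_mul⟩, ?_, ?_, ?_, ?_, ?_, ?_⟩
  · obtain ⟨k, hk⟩ := el_surj g.2
    exact ⟨k, Subtype.ext hk⟩
  · intro g hg x hx hk
    obtain ⟨k, rfl⟩ := el_surj hg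
    exact chamber k x hx hk
  · intro i
    have h := card_closure {i} {(0, 0), nbr (0, 0) i} (by simp) (by revert i; decide +kernel)
      (by revert i; decide +kernel)
    rw [Finset.coe_singleton, image_singleton] at h
    rw [h]
    clear h
    revert i
    decide +kernel
  · have h := card_closure {0, 1}
      {(0, 0), (0, 1), (4, 0), (4, 1), (8, 0), (8, 1), (12, 0), (12, 1)} (by simp)
      (by decide +kernel) (by decide +kernel)
    rw [Finset.coe_pair, image_pair] at h
    rw [h]
    decide +kernel
  · have h := card_closure {0, 2} {(0, 0), (0, 2), (8, 0), (8, 2)} (by simp)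
      (by decide +kernel) (by decide +kernel)
    rw [Finset.coe_pair, image_pair] at h
    rw [h]
    decide +kernel
  · have h := card_closure {1, 3} {(0, 0), (0, 1), (0, 3), (0, 5)} (by simp)
      (by decide +kernel) (by decide +kernel)
    rw [Finset.coe_pair, image_pair] at h
    rw [h]
    decide +kernel
  · have h := card_closure {2, 3} {(0, 0), (0, 2), (0, 3), (0, 7)} (by simp)
      (by decide +kernel) (by decide +kernel)
    rw [Finset.coe_pair, image_pair] at h
    rw [h]
    decide +kernel

end Pool.Agent.MP_6b3e96_gt.H78
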